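import Pool.Agent.Helper9.UNI.Sheet

/-!
# Project UNI, row KMT3u: the signed master inequality, constants uniform in the field
(edit of Helper92/LV/KMT3.lean)
-/

set_option autoImplicit false

open Filter Topology NumberField

namespace Pool.Agent.Helper33.UNI

open Pool.Agent.Helper42.LS Pool.Agent.Helper42.LK Pool.Agent.Helper54.LS Pool.Agent.Helper54.LM
  Pool.Agent.Helper92.LV Pool.Agent.Helper9.LS5 Pool.Agent.Helper54.LM3 Pool.Agent.Helper9.UNI

theorem KMT3u (hLOC : ST_KLOCu) (hARC : ST_KARC) (hGO : ST_KGO2) (hQCI : ST_QCI)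
    (hPOT : ST_KPOT2) (hDF : ST_KDF) (hFP : ST_KFP) (hDIV : ST_DIV) (hSIX : ST_SIX) :
    ST_KMT3u := by
  classical
  obtain ⟨CX, hCX0, hCX⟩ := hARC
  obtain ⟨CD, hCD0, hCD⟩ := hDIV
  intro D
  have hlog6 : 0 ≤ Real.log 6 := Real.log_nonneg (by norm_num)
  have hl2 : 0 < Real.log 2 := Real.log_pos (by norm_num)
  have hl2' : Real.log 2 ≤ 1 := by have := Real.log_two_lt_d9; linarith
  obtain ⟨L6, hL6⟩ : ∃ L6 : ℝ, L6 = (D : ℝ) * Real.log 6 := ⟨_, rfl⟩
  have hL60 : 0 ≤ L6 := by rw [hL6]; positivity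
  obtain ⟨C₀, hC₀⟩ : ∃ C₀ : ℝ, C₀ = 2 * (200 * L6) + L6 + D + L6 / Real.log 2 +
    200 * L6 / Real.log 2 + 2 * (D * CX) + D * (CD * CX) + 1 := ⟨_, rfl⟩
  have hC₀0 : 0 ≤ C₀ := by rw [hC₀]; positivity
  refine ⟨C₀, hC₀0, ?_⟩
  intro K _ _ hKD
  obtain ⟨h6fin, hs6, -, hsum6, hS6b, hcardI⟩ := hSIX K
  -- the places above 2 and 3
  obtain ⟨S6, hS6⟩ : ∃ S6 : Finset (FinitePlace K), ∀ v, v ∈ S6 ↔ ¬ (v 2 = 1 ∧ v 3 = 1) :=
    ⟨h6fin.toFinset, fun v => by rw [Set.Finite.mem_toFinset]; rfl⟩
  set d : ℝ := (Module.finrank ℚ K : ℝ) with hd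
  have hd0 : 0 ≤ d := Nat.cast_nonneg _
  have hdD : d ≤ (D : ℝ) := by rw [hd]; exact_mod_cast hKD
  have hdL6 : d * Real.log 6 ≤ L6 := by
    rw [hL6]; exact mul_le_mul_of_nonneg_right hdD hlog6
  set C1 : ℝ := 200 * (d * Real.log 6) with hC1
  have hC10 : 0 ≤ C1 := by positivity
  set C2 : ℝ := ∑ v ∈ S6, lq v with hC2
  have hlq0 : ∀ v : FinitePlace K, 0 < lq v := fun v =>
    lt_of_lt_of_le (Real.log_pos (by norm_num)) (kmt_log_two_le_lq v)
  have hC20 : 0 ≤ C2 := Finset.sum_nonneg fun v _ => (hlq0 v).le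
  set C3 : ℝ := (Fintype.card (InfinitePlace K) : ℝ) with hC3
  have hC30 : 0 ≤ C3 := Nat.cast_nonneg _
  set C4 : ℝ := (S6.card : ℝ) with hC4
  have hC40 : 0 ≤ C4 := Nat.cast_nonneg _
  set C5 : ℝ := C1 / Real.log 2 with hC5
  have hC50 : 0 ≤ C5 := by positivity
  have hdCX : 0 ≤ d * CX := by positivity
  have hdCDX : 0 ≤ d * (CD * CX) := by positivity
  have hle : 2 * C1 + C2 + C3 + C4 + C5 + 2 * (d * CX) + d * (CD * CX) + 1 ≤ C₀ := by
    obtain ⟨hb1, hb2⟩ := hS6b S6 (fun v hv => (hS6 v).1 hv)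
    have e1 : C1 ≤ 200 * L6 := by rw [hC1]; linarith
    have e2 : C2 ≤ L6 := by rw [hC2]; exact hb1.trans hdL6
    have e3 : C3 ≤ (D : ℝ) := by
      refine le_trans ?_ hdD
      rw [hC3, hd]
      exact_mod_cast hcardI
    have e4 : C4 ≤ L6 / Real.log 2 := by
      rw [le_div_iff₀ hl2]
      exact hb2.trans hdL6
    have e5 : C5 ≤ 200 * L6 / Real.log 2 := by
      rw [hC5]
      exact div_le_div_of_nonneg_right e1 hl2.le
    have e6 : d * CX ≤ D * CX := mul_le_mul_of_nonneg_right hdD hCX0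
    have e7 : d * (CD * CX) ≤ D * (CD * CX) :=
      mul_le_mul_of_nonneg_right hdD (mul_nonneg hCD0 hCX0)
    rw [hC₀]
    linarith
  intro A B hD x y e hg he
  obtain ⟨hfin, hloc, hmulfin, hH1, hH2⟩ := hDF K A B hD
  obtain ⟨S, hS⟩ : ∃ S : Finset (FinitePlace K), ∀ v, v ∈ S ↔
      ¬ (v 2 = 1 ∧ v 3 = 1 ∧ v A ≤ 1 ∧ v B ≤ 1 ∧ v (dsc A B) = 1) :=
    ⟨hfin.toFinset, fun v => by rw [Set.Finite.mem_toFinset]; rfl⟩
  have hS6S : S6 ⊆ S := by
    intro v hv
    rw [hS6] at hv
    rw [hS]
    exact fun h' => hv ⟨h'.1, h'.2.1⟩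
  have hSD : ∀ v : FinitePlace K, v ∉ S → v (dsc A B) = 1 := by
    intro v hv
    rw [hS, not_not] at hv
    exact hv.2.2.2.2
  set δ : FinitePlace K → ℝ := fun v => dl (fun x : K => v x) A B with hδ
  have hδ0 : ∀ v, 0 ≤ δ v := fun v => (hloc v).1
  have hδlq : ∀ v, δ v ≠ 0 → lq v ≤ δ v := fun v => (hloc v).2.1
  have hδS : ∀ v : FinitePlace K, v ∉ S → δ v = 0 := by
    intro v hv
    rw [hS, not_not] at hv
    exact (hloc v).2.2.2.2 hv.1 hv.2.1 hv.2.2.1 hv.2.2.2.1 hv.2.2.2.2
  obtain ⟨ε, hε⟩ : ∃ ε : FinitePlace K → ℝ, ∀ v, ε v = 200 * l6 v := ⟨_, fun _ => rfl⟩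
  have hε0 : ∀ v, 0 ≤ ε v := by
    intro v
    rw [hε]
    have := (hs6 v).1
    linarith
  have hε6 : ∀ v : FinitePlace K, v 2 = 1 ∧ v 3 = 1 → ε v = 0 := by
    intro v hv
    rw [hε, (hs6 v).2.1 hv.1 hv.2, mul_zero]
  have hεsum : ∀ T : Finset (FinitePlace K), ∑ v ∈ T, ε v ≤ C1 := by
    intro T
    have h1 : ∑ v ∈ T, ε v = 200 * ∑ v ∈ T, l6 v := by
      rw [Finset.mul_sum]
      exact Finset.sum_congr rfl fun v _ => hε v
    rw [h1, hC1]
    exact mul_le_mul_of_nonneg_left (hsum6 T) (by norm_num)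
  have hpack := fun v : FinitePlace K => hLOC K v A B hD x y hg
  simp only [← hε] at hpack
  choose wf tf nf U ff hw0 hwδ hn1 hint hnle hwz hmulv hU1 hU2 hff hU3 using hpack
  choose Ui fi τ hUi1 hUi2 hfi hUi3 using fun w : InfinitePlace K => hCX K w A B hD x y hg
  -- the potential inequality
  have hcne : ∀ k : ℕ, 1 ≤ k → 4 * cu A B (x k) ≠ 0 := fun k hk =>
    mul_ne_zero (by norm_num) (kmt_cu hg k hk)
  have hpot := hPOT K x (fun k => 4 * cu A B (x k)) e he hcne S U ε Ui CX
    (fun v _ k hk => hU1 v k hk)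
    (by
      intro v hv k hk
      have hv' := hv
      rw [hS, not_not] at hv'
      obtain ⟨V, hV, _⟩ := hFP K v
      have := hGO K V (by rw [hV]; exact hv'.1) A B (by rw [hV]; exact hv'.2.2.1)
        (by rw [hV]; exact hv'.2.2.2.1) (by rw [hV]; exact hv'.2.2.2.2) x y hg k hk
      simpa only [hV] using this)
    (fun w k hk => hUi1 w k hk) (fun v _ => hU2 v) (fun w => hUi2 w)
  -- the index sets
  set T : Finset (FinitePlace K) := S.filter (fun v => δ v ≠ 0 ∨ v ∈ S6) with hT
  have hTS : T ⊆ S := Finset.filter_subset _ _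
  have hTδ : ∀ v, v ∉ T → δ v = 0 := by
    intro v hv
    by_contra h'
    by_cases hvS : v ∈ S
    · exact hv (Finset.mem_filter.2 ⟨hvS, Or.inl h'⟩)
    · exact h' (hδS v hvS)
  have hTw : ∀ v ∈ S, v ∉ T → wf v = 0 := by
    intro v hvS hv
    have h6 : v ∉ S6 := fun h' => hv (Finset.mem_filter.2 ⟨hvS, Or.inr h'⟩)
    have h6' : v 2 = 1 ∧ v 3 = 1 := by
      rw [hS6, not_not] at h6; exact h6
    have h1 := hwδ v
    have h2 : ε v = 0 := hε6 v h6'
    rw [h2] at h1
    have h3 := abs_nonpos_iff.1 h1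
    have h4 := hTδ v hv
    simp only [hδ] at h4
    rw [h4] at h3
    linarith
  have hLD : LD A B = ∑ v ∈ T, δ v := by
    unfold LD
    apply finsum_eq_sum_of_support_subset
    intro v hv
    by_contra h'
    exact hv (hTδ v (by simpa using h'))
  have hLR : LR A B = ∑ v ∈ T, if 0 < δ v then lq v else 0 := by
    unfold LR
    apply finsum_eq_sum_of_support_subset
    intro v hv
    by_contra h'
    apply hv
    have := hTδ v (by simpa using h')
    simp only [hδ] at this
    simp [this]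
  have hLD0 : 0 ≤ LD A B := by rw [hLD]; exact Finset.sum_nonneg fun v _ => hδ0 v
  have hLR0 : 0 ≤ LR A B := by
    rw [hLR]
    apply Finset.sum_nonneg
    intro v _
    split_ifs
    · exact (hlq0 v).le
    · exact le_rfl
  have hLRLD : LR A B ≤ LD A B := by
    rw [hLR, hLD]
    apply Finset.sum_le_sum
    intro v _
    split_ifs with h
    · exact hδlq v h.ne'
    · exact hδ0 v
  -- arch weights
  set j : K := 6912 * A ^ 3 / dsc A B with hj
  set wi : InfinitePlace K → ℝ := fun w => (w.mult : ℝ) * max 0 (Real.log (w j)) with hwi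
  have hwi0 : ∀ w, 0 ≤ wi w := fun w => mul_nonneg (Nat.cast_nonneg _) (le_max_left _ _)
  set H : ℝ := LD A B + ∑ w : InfinitePlace K, wi w with hH
  have hHi0 : 0 ≤ ∑ w : InfinitePlace K, wi w := Finset.sum_nonneg fun w _ => hwi0 w
  -- number of multiplicative places
  obtain ⟨M, hM⟩ : ∃ M : Finset (FinitePlace K), ∀ v, v ∈ M ↔ IsMul (fun x : K => v x) A B :=
    ⟨hmulfin.toFinset, fun v => by rw [Set.Finite.mem_toFinset]; rfl⟩
  have hmK : mK A B = M.card := by
    unfold mK
    rw [← Set.ncard_coe_finset]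
    congr 1
    ext v
    simp [hM]
  have hmKle : (mK A B : ℝ) * Real.log 2 ≤ LD A B + C₀ := by
    have h1 : ∑ v ∈ M, Real.log 2 ≤ ∑ v ∈ M, (δ v + (if v ∈ S6 then 1 else 0)) := by
      apply Finset.sum_le_sum
      intro v hv
      by_cases h6 : v ∈ S6
      · rw [if_pos h6]; have := hδ0 v; linarith
      · rw [if_neg h6, add_zero]
        have h6' := h6
        rw [hS6, not_not] at h6'
        have h2 := (hloc v).2.2.2.1 h6'.1 h6'.2 ((hM v).1 hv)
        exact (kmt_log_two_le_lq v).trans (hδlq v h2.ne')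
    rw [Finset.sum_const, nsmul_eq_mul, Finset.sum_add_distrib, ← hmK] at h1
    have h2 : ∑ v ∈ M, δ v ≤ LD A B := by
      rw [hLD]
      calc ∑ v ∈ M, δ v = ∑ v ∈ M.filter (fun v => v ∈ T), δ v := by
            rw [Finset.sum_filter]
            apply Finset.sum_congr rfl
            intro v _
            split_ifs with h
            · rfl
            · exact hTδ v h
        _ ≤ ∑ v ∈ T, δ v := by
            apply Finset.sum_le_sum_of_subset_of_nonneg
            · intro v hv; exact (Finset.mem_filter.1 hv).2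
            · intro v _ _; exact hδ0 v
    have h3 : ∑ v ∈ M, (if v ∈ S6 then (1 : ℝ) else 0) ≤ C4 := by
      rw [← Finset.sum_filter, Finset.sum_const, nsmul_eq_mul, mul_one, hC4]
      have : M.filter (fun v => v ∈ S6) ⊆ S6 := fun v hv => (Finset.mem_filter.1 hv).2
      exact_mod_cast Finset.card_le_card this
    linarith
  -- the approximate formula for the canonical height
  set mn : ℕ → ℝ := fun k => ∑ v ∈ T, wf v * B2 (k * tf v) +
    ∑ w : InfinitePlace K, wi w * B2 (k * (12 * τ w)) with hmn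
  have hform : ∀ (k : ℕ), 1 ≤ k → ∀ TT : Finset (FinitePlace K), (∀ v ∈ TT, v ∉ S) →
      (∀ v : FinitePlace K, v ∉ S → v ∉ TT → v (x (12 * k)) ≤ 1) →
      |144 * (k : ℝ) ^ 2 * e - (mn k + (∑ v ∈ S, ff v k +
        ∑ v ∈ TT, Real.log (max (v (x (12 * k))) 1) +
        ∑ w : InfinitePlace K, (w.mult : ℝ) * fi w (12 * k)))| ≤ 4 / 3 * (C1 + d * CX) := by
    intro k hk TT hTT1 hTT2
    have h12 : 1 ≤ 12 * k := by omega
    have h1 := hpot (12 * k) h12 TT hTT1 hTT2
    have h9 : (((12 * k : ℕ) : ℝ)) ^ 2 * e = 144 * (k : ℝ) ^ 2 * e := by push_cast; ring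
    rw [h9, ← hd] at h1
    have h2 : |∑ v ∈ S, U v (12 * k) - (∑ v ∈ S, wf v * B2 (k * tf v) +
        1 / 6 * ∑ v ∈ S, Real.log (v (dsc A B)) + ∑ v ∈ S, ff v k)| ≤ C1 := by
      have e1 : ∑ v ∈ S, U v (12 * k) - (∑ v ∈ S, wf v * B2 (k * tf v) +
          1 / 6 * ∑ v ∈ S, Real.log (v (dsc A B)) + ∑ v ∈ S, ff v k) =
          ∑ v ∈ S, (U v (12 * k) - (wf v * B2 (k * tf v) +
            1 / 6 * Real.log (v (dsc A B)) + ff v k)) := by
        rw [Finset.sum_sub_distrib, Finset.sum_add_distrib, Finset.sum_add_distrib,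
          ← Finset.mul_sum]
      rw [e1]
      exact (Finset.abs_sum_le_sum_abs _ _).trans
        ((Finset.sum_le_sum fun v _ => hU3 v k hk).trans (hεsum S))
    have e2 : ∑ w : InfinitePlace K, (w.mult : ℝ) = d := by
      rw [hd, ← InfinitePlace.sum_mult_eq]; push_cast; rfl
    have h3 : |∑ w : InfinitePlace K, (w.mult : ℝ) * Ui w (12 * k) -
        (1 / 6 * ∑ w : InfinitePlace K, (w.mult : ℝ) * Real.log (w (dsc A B)) +
        ∑ w : InfinitePlace K, wi w * B2 (k * (12 * τ w)) +
        ∑ w : InfinitePlace K, (w.mult : ℝ) * fi w (12 * k))| ≤ d * CX := by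
      have e1 : ∑ w : InfinitePlace K, (w.mult : ℝ) * Ui w (12 * k) -
          (1 / 6 * ∑ w : InfinitePlace K, (w.mult : ℝ) * Real.log (w (dsc A B)) +
          ∑ w : InfinitePlace K, wi w * B2 (k * (12 * τ w)) +
          ∑ w : InfinitePlace K, (w.mult : ℝ) * fi w (12 * k)) =
          ∑ w : InfinitePlace K, (w.mult : ℝ) * (Ui w (12 * k) -
            (1 / 6 * Real.log (w (dsc A B)) + max 0 (Real.log (w j)) *
              B2 (((12 * k : ℕ) : ℝ) * τ w) + fi w (12 * k))) := by
        rw [Finset.mul_sum, ← Finset.sum_add_distrib, ← Finset.sum_add_distrib,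
          ← Finset.sum_sub_distrib]
        apply Finset.sum_congr rfl
        intro w _
        have : (((12 * k : ℕ) : ℝ) * τ w) = k * (12 * τ w) := by push_cast; ring
        rw [this]; simp only [hwi]; ring
      rw [e1, ← e2, Finset.sum_mul]
      refine (Finset.abs_sum_le_sum_abs _ _).trans (Finset.sum_le_sum fun w _ => ?_)
      rw [abs_mul, abs_of_nonneg (Nat.cast_nonneg _ : (0 : ℝ) ≤ (w.mult : ℝ))]
      exact mul_le_mul_of_nonneg_left (hUi3 w (12 * k) h12) (Nat.cast_nonneg _)
    have h4 := kmt_prod hD S hSD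
    have h7 : ∑ v ∈ S, wf v * B2 (k * tf v) = ∑ v ∈ T, wf v * B2 (k * tf v) := by
      symm
      apply Finset.sum_subset hTS
      intro v hv hv'
      rw [hTw v hv hv', zero_mul]
    have h8 := hεsum S
    have h10 : (0 : ℝ) ≤ ∑ v ∈ S, ε v := Finset.sum_nonneg fun v _ => hε0 v
    rw [h7] at h2
    rw [abs_le] at h1 h2 h3 ⊢
    simp only [hmn]
    constructor <;> linarith [h1.1, h1.2, h2.1, h2.2, h3.1, h3.2]
  refine ⟨hLD0, H, by linarith, ?_, ?_, ?_⟩
  · rw [hH]; simp only [hwi]; linarith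
  · rw [hH]; simp only [hwi] at hHi0 ⊢; linarith
  -- the summary
  have hne : Nonempty (FinitePlace K ⊕ InfinitePlace K) := by
    obtain ⟨w⟩ : Nonempty (InfinitePlace K) := inferInstance
    exact ⟨Sum.inr w⟩
  have hI : ∀ F : FinitePlace K ⊕ InfinitePlace K → ℝ,
      ∑ i ∈ T.disjSum (Finset.univ : Finset (InfinitePlace K)), F i =
      ∑ v ∈ T, F (Sum.inl v) + ∑ w : InfinitePlace K, F (Sum.inr w) := fun F => by
    rw [Finset.sum_disjSum]
  have hJ : ∀ F : FinitePlace K ⊕ InfinitePlace K → ℝ,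
      ∑ i ∈ T.disjSum (∅ : Finset (InfinitePlace K)), F i = ∑ v ∈ T, F (Sum.inl v) := fun F => by
    rw [Finset.sum_disjSum]; simp
  have hJm : ∀ (Q : FinitePlace K ⊕ InfinitePlace K → Prop),
      (∀ v ∈ T, Q (Sum.inl v)) → ∀ i ∈ T.disjSum (∅ : Finset (InfinitePlace K)), Q i := by
    intro Q hQ i hi
    rcases Finset.mem_disjSum.1 hi with ⟨v, hv, rfl⟩ | ⟨w, hw, rfl⟩
    · exact hQ v hv
    · simp at hw
  have hTC : |∑ v ∈ T, wf v - LD A B| ≤ C₀ := by
    rw [hLD, ← Finset.sum_sub_distrib]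
    refine (Finset.abs_sum_le_sum_abs _ _).trans ?_
    refine (Finset.sum_le_sum fun v _ => hwδ v).trans ?_
    refine (hεsum T).trans ?_
    linarith
  apply kmt3_transport (P := fun E => LX A B E) (ρ := FinitePlace K)
    (D := fun v => dl (fun x : K => v x) A B)
    (T.disjSum (Finset.univ : Finset (InfinitePlace K)))
    (T.disjSum (∅ : Finset (InfinitePlace K))) (Sum.elim wf wi)
    (Sum.elim tf (fun w => 12 * τ w)) (Sum.elim nf (fun _ => 1))
  · exact Finset.disjSum_mono subset_rfl (Finset.empty_subset _)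
  · intro i hi
    rcases Finset.mem_disjSum.1 hi with ⟨v, hv, rfl⟩ | ⟨w, hw, rfl⟩
    · exact hw0 v
    · exact hwi0 w
  · exact hJm _ fun v _ => hn1 v
  · exact hJm _ fun v _ => hint v
  · apply hJm
    intro v _ h
    refine le_trans ?_ (hnle v h)
    exact mul_le_mul_of_nonneg_left (kmt_log_two_le_lq v) (Nat.cast_nonneg _)
  · -- card
    have h1 : T.disjSum (Finset.univ : Finset (InfinitePlace K)) \
        T.disjSum (∅ : Finset (InfinitePlace K)) ⊆
        (Finset.univ : Finset (InfinitePlace K)).map Function.Embedding.inr := by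
      intro i hi
      rw [Finset.mem_sdiff] at hi
      rcases Finset.mem_disjSum.1 hi.1 with ⟨v, hv, rfl⟩ | ⟨w, hw, rfl⟩
      · exact absurd (Finset.mem_disjSum.2 (Or.inl ⟨v, hv, rfl⟩)) hi.2
      · exact Finset.mem_map.2 ⟨w, Finset.mem_univ _, rfl⟩
    have h2 := Finset.card_le_card h1
    rw [Finset.card_map, Finset.card_univ] at h2
    have h3 : ((T.disjSum (Finset.univ : Finset (InfinitePlace K)) \
        T.disjSum (∅ : Finset (InfinitePlace K))).card : ℝ) ≤ C3 := by
      rw [hC3]; exact_mod_cast h2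
    linarith
  · -- cardf
    have h0 : (T.disjSum (∅ : Finset (InfinitePlace K))).card = T.card := by
      rw [Finset.card_disjSum]; simp
    rw [h0, hLR]
    have h1 : ∑ v ∈ T, Real.log 2 ≤
        ∑ v ∈ T, ((if 0 < δ v then lq v else 0) + (if v ∈ S6 then 1 else 0)) := by
      apply Finset.sum_le_sum
      intro v hv
      by_cases h6 : v ∈ S6
      · rw [if_pos h6]
        have : 0 ≤ (if 0 < δ v then lq v else 0) := by
          split_ifs
          · exact (hlq0 v).le
          · exact le_rfl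
        linarith
      · have h7 : δ v ≠ 0 := by
          rcases (Finset.mem_filter.1 hv).2 with h | h
          · exact h
          · exact absurd h h6
        have h8 : 0 < δ v := lt_of_le_of_ne (hδ0 v) (Ne.symm h7)
        rw [if_neg h6, if_pos h8, add_zero]
        exact kmt_log_two_le_lq v
    rw [Finset.sum_const, nsmul_eq_mul, Finset.sum_add_distrib] at h1
    have h3 : ∑ v ∈ T, (if v ∈ S6 then (1 : ℝ) else 0) ≤ C4 := by
      rw [← Finset.sum_filter, Finset.sum_const, nsmul_eq_mul, mul_one, hC4]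
      have : T.filter (fun v => v ∈ S6) ⊆ S6 := fun v hv => (Finset.mem_filter.1 hv).2
      exact_mod_cast Finset.card_le_card this
    linarith
  · -- total
    rw [hI]
    simp only [Sum.elim_inl, Sum.elim_inr]
    have : ∑ v ∈ T, wf v + ∑ w : InfinitePlace K, wi w - H = ∑ v ∈ T, wf v - LD A B := by
      rw [hH]; ring
    rw [this]; exact hTC
  · rw [hJ]; simpa using hTC
  · -- rad
    rw [hJ]
    simp only [Sum.elim_inl]
    rw [hLR]
    have h1 : ∑ v ∈ T, ((if 0 < δ v then lq v else 0) - (if v ∈ S6 then lq v else 0)) ≤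
        ∑ v ∈ T, wf v / nf v := by
      apply Finset.sum_le_sum
      intro v hv
      have hnn : 0 ≤ wf v / nf v := div_nonneg (hw0 v) (Nat.cast_nonneg _)
      by_cases h6 : v ∈ S6
      · rw [if_pos h6]
        have : (if 0 < δ v then lq v else 0) ≤ lq v := by
          split_ifs
          · exact le_rfl
          · exact (hlq0 v).le
        linarith
      · rw [if_neg h6, sub_zero]
        split_ifs with h
        · have h6' := h6
          rw [hS6, not_not] at h6'
          have h2 := hwδ v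
          have h3 : ε v = 0 := hε6 v h6'
          rw [h3] at h2
          have h4 := abs_nonpos_iff.1 h2
          have h5 : wf v = δ v := by simp only [hδ]; linarith
          have h7 := hnle v (by rw [h5]; exact h.ne')
          have h8 : (0 : ℝ) < nf v := by exact_mod_cast (hn1 v)
          rw [le_div_iff₀ h8]; linarith
        · exact hnn
    rw [Finset.sum_sub_distrib] at h1
    have h3 : ∑ v ∈ T, (if v ∈ S6 then lq v else 0) ≤ C2 := by
      rw [← Finset.sum_filter]
      apply Finset.sum_le_sum_of_subset_of_nonneg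
      · intro v hv; exact (Finset.mem_filter.1 hv).2
      · intro v _ _; exact (hlq0 v).le
    linarith
  · -- multiplicative places
    have h1 : (T.disjSum (∅ : Finset (InfinitePlace K))).filter
        (fun i => Sum.elim tf (fun w => 12 * τ w) i ≠ 0) ⊆ (M ∪ S6).map Function.Embedding.inl := by
      intro i hi
      rw [Finset.mem_filter] at hi
      rcases Finset.mem_disjSum.1 hi.1 with ⟨v, hv, rfl⟩ | ⟨w, hw, rfl⟩
      · refine Finset.mem_map.2 ⟨v, ?_, rfl⟩
        rw [Finset.mem_union]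
        by_cases h6 : v ∈ S6
        · exact Or.inr h6
        · left
          have h6' := h6
          rw [hS6, not_not] at h6'
          exact (hM v).2 (hmulv v h6'.1 h6'.2 (by simpa using hi.2))
      · simp at hw
    have h2 := Finset.card_le_card h1
    rw [Finset.card_map] at h2
    have h3 := h2.trans (Finset.card_union_le M S6)
    have h4 : (((T.disjSum (∅ : Finset (InfinitePlace K))).filter
        (fun i => Sum.elim tf (fun w => 12 * τ w) i ≠ 0)).card : ℝ) ≤ (M.card : ℝ) + S6.card := by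
      exact_mod_cast h3
    rw [hmK]; linarith
  · -- main inequality
    intro k hk
    have hfin2 : {v : FinitePlace K | 1 < v (x (12 * k))}.Finite := kmt2_fin _
    have h1 := hform k hk (hfin2.toFinset.filter (fun v => v ∉ S))
      (fun v hv => (Finset.mem_filter.1 hv).2) (by
        intro v hvS hv
        by_contra h'
        apply hv
        rw [Finset.mem_filter, Set.Finite.mem_toFinset]
        exact ⟨not_le.1 h', hvS⟩)
    have h2 : 0 ≤ ∑ v ∈ S, ff v k := Finset.sum_nonneg fun v _ => (hff v).nonneg k hk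
    have h3 : 0 ≤ ∑ v ∈ hfin2.toFinset.filter (fun v => v ∉ S),
        Real.log (max (v (x (12 * k))) 1) :=
      Finset.sum_nonneg fun v _ => Real.log_nonneg (le_max_right _ _)
    have h4 : 0 ≤ ∑ w : InfinitePlace K, (w.mult : ℝ) * fi w (12 * k) :=
      Finset.sum_nonneg fun w _ => mul_nonneg (Nat.cast_nonneg _)
        ((hfi w).nonneg (12 * k) (by omega))
    rw [hI]
    simp only [Sum.elim_inl, Sum.elim_inr]
    have h5 := (abs_le.1 h1).1
    simp only [hmn] at h5
    linarith
  · -- signed master inequality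
    intro N b hN hb
    -- the places outside S
    obtain ⟨TT, hTT1, hTT2⟩ : ∃ TT : Finset (FinitePlace K), (∀ v ∈ TT, v ∉ S) ∧
        ∀ k ∈ Finset.Icc 1 N, ∀ v : FinitePlace K, v ∉ S → v ∉ TT → v (x (12 * k)) ≤ 1 := by
      refine ⟨((Finset.Icc 1 N).biUnion (fun k => (kmt2_fin (x (12 * k))).toFinset)).filter
        (fun v => v ∉ S), fun v hv => (Finset.mem_filter.1 hv).2, ?_⟩
      intro k hk v hvS hv
      by_contra h'
      apply hv
      rw [Finset.mem_filter, Finset.mem_biUnion]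
      refine ⟨⟨k, hk, ?_⟩, hvS⟩
      rw [Set.Finite.mem_toFinset]
      exact not_le.1 h'
    set Fk : ℕ → ℝ := fun k => ∑ v ∈ S, ff v k +
        ∑ v ∈ TT, Real.log (max (v (x (12 * k))) 1) +
        ∑ w : InfinitePlace K, (w.mult : ℝ) * fi w (12 * k) with hFk
    have h1 : ∀ k ∈ Finset.Icc 1 N, b k * mn k ≤ 144 * e * (b k * (k : ℝ) ^ 2) - b k * Fk k +
        4 / 3 * (C1 + d * CX) * |b k| := by
      intro k hk
      have h2 := hform k (Finset.mem_Icc.1 hk).1 TT hTT1 (hTT2 k hk)
      have h3 : |b k * (144 * (k : ℝ) ^ 2 * e - (mn k + Fk k))| ≤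
          4 / 3 * (C1 + d * CX) * |b k| := by
        rw [abs_mul, mul_comm]
        exact mul_le_mul_of_nonneg_right h2 (abs_nonneg _)
      have h4 := (abs_le.1 h3).1
      linarith
    have h2 := Finset.sum_le_sum h1
    rw [Finset.sum_add_distrib, Finset.sum_sub_distrib, ← Finset.mul_sum, ← Finset.mul_sum] at h2
    have hL1 : 1 ≤ (1 + Real.log N) ^ 2 := by
      have h3 : 0 ≤ Real.log N := Real.log_nonneg (by exact_mod_cast hN)
      nlinarith
    set Sb : ℝ := ∑ k ∈ Finset.Icc 1 N, |b k| with hSb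
    have hSb0 : 0 ≤ Sb := Finset.sum_nonneg fun k _ => abs_nonneg _
    -- lower bound for the closeness terms
    have hdiv0 : ∀ f : ℕ → ℝ, QC 0 f → 0 ≤ ∑ k ∈ Finset.Icc 1 N, b k * f k := by
      intro f hf
      have := hCD 0 f b N le_rfl hf hN hb
      simpa using this
    have h3 : ∑ k ∈ Finset.Icc 1 N, b k * Fk k = ∑ v ∈ S, ∑ k ∈ Finset.Icc 1 N, b k * ff v k +
        ∑ v ∈ TT, ∑ k ∈ Finset.Icc 1 N, b k * Real.log (max (v (x (12 * k))) 1) +
        ∑ w : InfinitePlace K, (w.mult : ℝ) * ∑ k ∈ Finset.Icc 1 N, b k * fi w (12 * k) := by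
      rw [Finset.sum_comm (s := S), Finset.sum_comm (s := TT)]
      have e1 : ∑ w : InfinitePlace K, (w.mult : ℝ) * ∑ k ∈ Finset.Icc 1 N, b k * fi w (12 * k) =
          ∑ k ∈ Finset.Icc 1 N, ∑ w : InfinitePlace K, (w.mult : ℝ) * (b k * fi w (12 * k)) := by
        rw [Finset.sum_comm]
        exact Finset.sum_congr rfl fun w _ => Finset.mul_sum _ _ _
      rw [e1, ← Finset.sum_add_distrib, ← Finset.sum_add_distrib]
      apply Finset.sum_congr rfl
      intro k _
      simp only [hFk]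
      rw [mul_add, mul_add, Finset.mul_sum, Finset.mul_sum, Finset.mul_sum]
      congr 1
      apply Finset.sum_congr rfl
      intro w _
      ring
    have h4 : 0 ≤ ∑ v ∈ S, ∑ k ∈ Finset.Icc 1 N, b k * ff v k :=
      Finset.sum_nonneg fun v _ => hdiv0 _ (hff v)
    have h5 : 0 ≤ ∑ v ∈ TT, ∑ k ∈ Finset.Icc 1 N, b k * Real.log (max (v (x (12 * k))) 1) := by
      apply Finset.sum_nonneg
      intro v hv
      have hv' := hTT1 v hv
      rw [hS, not_not] at hv'
      obtain ⟨V, hV, _⟩ := hFP K v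
      have h6 := hQCI K V A B (by rw [hV]; exact hv'.2.2.1) (by rw [hV]; exact hv'.2.2.2.1)
        x y hg
      simp only [hV] at h6
      exact hdiv0 (fun k => Real.log (max (v (x (12 * k))) 1)) (kmt2_qc12 h6)
    have h6 : -(d * (CD * CX) * (1 + Real.log N) ^ 2 * Sb) ≤
        ∑ w : InfinitePlace K, (w.mult : ℝ) * ∑ k ∈ Finset.Icc 1 N, b k * fi w (12 * k) := by
      have e2 : ∑ w : InfinitePlace K, (w.mult : ℝ) = d := by
        rw [hd, ← InfinitePlace.sum_mult_eq]; push_cast; rfl
      have e3 : -(d * (CD * CX) * (1 + Real.log N) ^ 2 * Sb) =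
          ∑ w : InfinitePlace K, (w.mult : ℝ) * (-(CD * CX * (1 + Real.log N) ^ 2 * Sb)) := by
        rw [← Finset.sum_mul, e2]; ring
      rw [e3]
      apply Finset.sum_le_sum
      intro w _
      exact mul_le_mul_of_nonneg_left
        (hCD CX (fun k => fi w (12 * k)) b N hCX0 (kmt2_qc12 (hfi w)) hN hb) (Nat.cast_nonneg _)
    have h7 : ∑ k ∈ Finset.Icc 1 N, b k * (∑ v ∈ T.disjSum (Finset.univ : Finset (InfinitePlace K)),
        Sum.elim wf wi v * B2 (k * Sum.elim tf (fun w => 12 * τ w) v)) =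
        ∑ k ∈ Finset.Icc 1 N, b k * mn k := by
      apply Finset.sum_congr rfl
      intro k _
      rw [hI]
      simp only [Sum.elim_inl, Sum.elim_inr, hmn]
    rw [h7]
    have h8 : 4 / 3 * (C1 + d * CX) * Sb ≤ 4 / 3 * (C1 + d * CX) * ((1 + Real.log N) ^ 2 * Sb) := by
      apply mul_le_mul_of_nonneg_left _ (by positivity)
      nlinarith
    have h9 : (4 / 3 * (C1 + d * CX) + d * (CD * CX)) * ((1 + Real.log N) ^ 2 * Sb) ≤
        C₀ * ((1 + Real.log N) ^ 2 * Sb) := by
      apply mul_le_mul_of_nonneg_right _ (by positivity)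
      linarith
    linarith
  · -- exponents
    intro E hE
    have hJf : ∀ F : FinitePlace K ⊕ InfinitePlace K → ℝ,
        ∑ i ∈ (T.disjSum (∅ : Finset (InfinitePlace K))).filter
          (fun i => E + C₀ < ((Sum.elim nf (fun _ => 1) i : ℕ) : ℝ)), F i =
        ∑ v ∈ T, if E + C₀ < (nf v : ℝ) then F (Sum.inl v) else 0 := by
      intro F
      rw [Finset.sum_filter, hJ]
      simp only [Sum.elim_inl]
      exact Finset.sum_congr rfl fun v _ => by
        by_cases h : E + C₀ < (nf v : ℝ)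
        · simp [h]
        · simp [h]
    rw [hJf]
    simp only [Sum.elim_inl]
    have hLX : LX A B E = ∑ v ∈ T, if E * lq v < δ v then δ v else 0 := by
      unfold LX
      apply finsum_eq_sum_of_support_subset
      intro v hv
      by_contra h'
      apply hv
      have := hTδ v (by simpa using h')
      simp only [hδ] at this
      simp [this]
    rw [hLX]
    have h1 : ∑ v ∈ T, (if E + C₀ < (nf v : ℝ) then wf v else 0) ≤
        ∑ v ∈ T, ((if E * lq v < δ v then δ v else 0) + ε v) := by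
      apply Finset.sum_le_sum
      intro v _
      have hnn : 0 ≤ (if E * lq v < δ v then δ v else 0) := by
        split_ifs
        · exact hδ0 v
        · exact le_rfl
      split_ifs with h2 h3 h3
      · have h4 := (abs_le.1 (hwδ v)).2
        simp only [hδ]
        linarith
      · by_cases hwv : wf v = 0
        · rw [hwv]
          have := hε0 v
          linarith
        · exfalso
          apply h3
          have h4 := hnle v hwv
          have h5 := (abs_le.1 (hwδ v)).2
          have h6 : ε v ≤ C1 := by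
            have := hεsum {v}
            simpa using this
          have h7 : C1 ≤ C5 * lq v := by
            rw [hC5, div_mul_eq_mul_div, le_div_iff₀ hl2]
            exact mul_le_mul_of_nonneg_left (kmt_log_two_le_lq v) hC10
          have h8 : (E + C5) * lq v < nf v * lq v := by
            apply mul_lt_mul_of_pos_right _ (hlq0 v)
            refine lt_of_le_of_lt ?_ h2
            linarith
          simp only [hδ]
          linarith
      · have := hε0 v
        have := hδ0 v
        linarith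
      · have := hε0 v
        linarith
    rw [Finset.sum_add_distrib] at h1
    have h2 := hεsum T
    linarith
  · -- sizes of the single places
    intro v
    by_cases hv : v ∈ T
    · refine ⟨Sum.inl v, Finset.mem_disjSum.2 (Or.inl ⟨v, hv, rfl⟩), ?_⟩
      have h1 := (abs_le.1 (hwδ v)).1
      have h2 : ε v ≤ C1 := by
        have := hεsum {v}
        simpa using this
      simp only [Sum.elim_inl]
      linarith
    · obtain ⟨w⟩ : Nonempty (InfinitePlace K) := inferInstance
      refine ⟨Sum.inr w, Finset.mem_disjSum.2 (Or.inr ⟨w, Finset.mem_univ _, rfl⟩), ?_⟩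
      have h1 : dl (fun x : K => v x) A B = 0 := hTδ v hv
      have h2 := hwi0 w
      simp only [Sum.elim_inr]
      rw [h1]
      linarith

end Pool.Agent.Helper33.UNI
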