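import Pool.Agent.Helper9.UNI.Sheet

/-!
# Project UNI, row LMTu: master inequality for several points, constants uniform in the field
(edit of Helper11/LM/LMT.lean)
-/

set_option autoImplicit false

open Filter Topology NumberField

namespace Pool.Agent.Helper33.UNI

open Pool.Agent.Helper42.LS Pool.Agent.Helper42.LK Pool.Agent.Helper54.LS Pool.Agent.Helper54.LM
  Pool.Agent.Helper92.LV Pool.Agent.Helper9.LS5 Pool.Agent.Helper54.LM3 Pool.Agent.Helper9.UNI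

/-- local package at a place of a number field -/
lemma LMTu_local (hLB : ST_LLB) (hLS : ST_LLSu) (hFP : ST_KFP) (hSIX : ST_SIX) (K : Type)
    [Field K] [NumberField K] (v : FinitePlace K) (A B : K) (hD : dsc A B ≠ 0) (m : ℕ)
    (X Y : (Fin m → ℤ) → K) (hg : GLat (0 : K) A B X Y) :
    ∃ (w : ℝ) (t : Fin m → ℝ) (N : ℕ), 0 ≤ w ∧ |w - dl (fun x : K => v x) A B| ≤ 200 * l6 v ∧
    1 ≤ N ∧
    (∀ i, ∃ a : ℤ, (N : ℝ) * t i = a) ∧ (w ≠ 0 → N * lq v ≤ w) ∧
    ∀ k : Fin m → ℤ, k ≠ 0 → ∃ U : ℕ → ℝ,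
    (∀ n : ℕ, 1 ≤ n → 4 * U n - 200 * l6 v ≤
      U (2 * n) + Real.log (v (4 * cu A B (X (n • k))))) ∧
    (∃ C : ℝ, ∀ n : ℕ, 1 ≤ n → U n ≤ Real.log (max (v (X (n • k))) 1) + C) ∧
    (∀ n : ℕ, 1 ≤ n → w * B2 (n * pr k t) + 1 / 6 * Real.log (v (dsc A B)) - 200 * l6 v ≤
      U (12 * n)) := by
  obtain ⟨V, hV, hq⟩ := hFP K v
  have hfun : V.nr = fun x : K => v x := funext hV
  have hlq : lq v = Real.log V.q := by rw [lq, hq]
  have hl6 : -Real.log (V.nr 6) = l6 v := by rw [l6, hV]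
  obtain ⟨-, h6a, -, -, -, -⟩ := hSIX K
  obtain ⟨h60, h61, -⟩ := h6a v
  by_cases h6 : v 2 = 1 ∧ v 3 = 1
  · have hε0 : l6 v = 0 := h61 h6.1 h6.2
    have h2 : V.ord 2 = 0 := (V.nr_eq_one_iff (by norm_num)).1 (by rw [hV]; exact h6.1)
    have h3 : V.ord 3 = 0 := (V.nr_eq_one_iff (by norm_num)).1 (by rw [hV]; exact h6.2)
    obtain ⟨t, N, h0, hN, hint, hle, hU⟩ := hLB K V h2 h3 A B hD m X Y hg
    rw [hfun] at h0 hle
    rw [hε0]
    refine ⟨dl (fun x : K => v x) A B, t, N, h0, by simp, hN, hint,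
        fun h => by rw [hlq]; exact hle h, ?_⟩
    intro k hk
    obtain ⟨U, hU1, hU2, hU3⟩ := hU k hk
    rw [hfun] at hU3
    simp only [hV] at hU1 hU2 hU3
    refine ⟨U, ?_, hU2, ?_⟩
    · intro n hn; have := hU1 n hn; linarith
    · intro n hn; have := hU3 n hn; linarith
  · have h6' : ¬ (V.ord 2 = 0 ∧ V.ord 3 = 0) := by
      rintro ⟨h2, h3⟩
      refine h6 ⟨?_, ?_⟩
      · rw [← hV]; exact (V.nr_eq_one_iff (by norm_num)).2 h2
      · rw [← hV]; exact (V.nr_eq_one_iff (by norm_num)).2 h3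
    obtain ⟨w, t, N, h0, hw, hN, hint, hle, hU⟩ := hLS K V h6' A B hD m X Y hg
    rw [hl6, hfun] at hw
    refine ⟨w, t, N, h0, hw, hN, hint, fun h => by rw [hlq]; exact hle h, ?_⟩
    intro k hk
    obtain ⟨U, hU1, hU2, hU3⟩ := hU k hk
    rw [hl6] at hU1 hU3
    simp only [hV] at hU1 hU2 hU3
    exact ⟨U, hU1, hU2, hU3⟩

theorem LMTu (hLB : ST_LLB) (hLS : ST_LLSu) (hCX : ST_LCX) (hSQ : ST_LSQ) (hMAP : ST_LMAP)
    (hGO : ST_KGO) (hPOT : ST_KPOT) (hDF : ST_KDF) (hFP : ST_KFP) (hSIX : ST_SIX) :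
    ST_LMTu := by
  classical
  intro D m
  obtain ⟨CX, hCX0, hCX⟩ := LMT_arch hCX hMAP m
  obtain ⟨D', hD'⟩ : ∃ D' : ℝ, D' = (D : ℝ) := ⟨_, rfl⟩
  have hD'0 : 0 ≤ D' := by rw [hD']; exact Nat.cast_nonneg _
  have hlog6 : 0 ≤ Real.log 6 := Real.log_nonneg (by norm_num)
  have hDl : 0 ≤ D' * Real.log 6 := mul_nonneg hD'0 hlog6
  have hDCX : 0 ≤ D' * CX := mul_nonneg hD'0 hCX0
  refine ⟨2 * (200 * (D' * Real.log 6)) + D' + 2 * (D' * CX) + 1, by linarith, ?_⟩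
  intro K _ _ hKD A B hD X Y e hg he
  obtain ⟨d, hd⟩ : ∃ d : ℝ, d = (Module.finrank ℚ K : ℝ) := ⟨_, rfl⟩
  have hd0 : 0 ≤ d := by rw [hd]; exact Nat.cast_nonneg _
  have hdD : d ≤ D' := by rw [hd, hD']; exact_mod_cast hKD
  obtain ⟨-, hs6, -, hsum6, -, hcardI⟩ := hSIX K
  obtain ⟨C1, hC1⟩ : ∃ C1 : ℝ, C1 = 200 * (d * Real.log 6) := ⟨_, rfl⟩
  have hC10 : 0 ≤ C1 := by rw [hC1]; positivity
  have hC1D : C1 ≤ 200 * (D' * Real.log 6) := by
    rw [hC1]
    have := mul_le_mul_of_nonneg_right hdD hlog6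
    linarith
  obtain ⟨C3, hC3⟩ : ∃ C3 : ℝ, C3 = (Fintype.card (InfinitePlace K) : ℝ) := ⟨_, rfl⟩
  have hC30 : 0 ≤ C3 := by rw [hC3]; exact Nat.cast_nonneg _
  have hC3D : C3 ≤ D' := by
    refine le_trans ?_ hdD
    rw [hC3, hd]
    exact_mod_cast hcardI
  have hdCX : 0 ≤ d * CX := mul_nonneg hd0 hCX0
  have hdCXD : d * CX ≤ D' * CX := mul_le_mul_of_nonneg_right hdD hCX0
  obtain ⟨C₀, hC₀⟩ : ∃ C₀ : ℝ, C₀ = 2 * (200 * (D' * Real.log 6)) + D' + 2 * (D' * CX) + 1 :=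
    ⟨_, rfl⟩
  rw [← hC₀]
  have hC₀1 : 2 * C1 + C3 + 2 * (d * CX) + 1 ≤ C₀ := by rw [hC₀]; linarith
  obtain ⟨hfin, hloc, hmulfin, hH1, hH2⟩ := hDF K A B hD
  obtain ⟨S, hS⟩ : ∃ S : Finset (FinitePlace K), ∀ v, v ∈ S ↔
      ¬ (v 2 = 1 ∧ v 3 = 1 ∧ v A ≤ 1 ∧ v B ≤ 1 ∧ v (dsc A B) = 1) :=
    ⟨hfin.toFinset, fun v => by rw [Set.Finite.mem_toFinset]; rfl⟩
  have hSD : ∀ v : FinitePlace K, v ∉ S → v (dsc A B) = 1 := by
    intro v hv
    rw [hS, not_not] at hv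
    exact hv.2.2.2.2
  obtain ⟨δ, hδ⟩ : ∃ δ : FinitePlace K → ℝ, ∀ v, δ v = dl (fun x : K => v x) A B :=
    ⟨fun v => dl (fun x : K => v x) A B, fun _ => rfl⟩
  have hδ0 : ∀ v, 0 ≤ δ v := fun v => by rw [hδ]; exact (hloc v).1
  have hδS : ∀ v : FinitePlace K, v ∉ S → δ v = 0 := by
    intro v hv
    rw [hS, not_not] at hv
    rw [hδ]
    exact (hloc v).2.2.2.2 hv.1 hv.2.1 hv.2.2.1 hv.2.2.2.1 hv.2.2.2.2
  obtain ⟨ε, hε⟩ : ∃ ε : FinitePlace K → ℝ, ∀ v, ε v = 200 * l6 v :=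
    ⟨fun v => 200 * l6 v, fun _ => rfl⟩
  have hε0 : ∀ v, 0 ≤ ε v := by
    intro v
    rw [hε]
    have := (hs6 v).1
    linarith
  have hεsum : ∀ T : Finset (FinitePlace K), ∑ v ∈ T, ε v ≤ C1 := by
    intro T
    have h1 : ∑ v ∈ T, ε v = 200 * ∑ v ∈ T, l6 v := by
      rw [Finset.mul_sum]
      exact Finset.sum_congr rfl fun v _ => hε v
    rw [h1, hC1, hd]
    exact mul_le_mul_of_nonneg_left (hsum6 T) (by norm_num)
  have hpack := fun v : FinitePlace K => LMTu_local hLB hLS hFP hSIX K v A B hD m X Y hg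
  simp only [← hε] at hpack
  choose wf tf nf hw0 hwδ hn1 hint hnle hUf using hpack
  choose τ hUi using fun w : InfinitePlace K => hCX K w A B hD X Y hg
  have hLD : LD A B = ∑ v ∈ S, δ v := by
    unfold LD
    have h0 : (fun v : FinitePlace K => dl (fun x : K => v x) A B) = δ := by
      funext v; rw [hδ]
    rw [h0]
    apply finsum_eq_sum_of_support_subset
    intro v hv
    by_contra h'
    exact hv (hδS v (by simpa using h'))
  have hLD0 : 0 ≤ LD A B := by rw [hLD]; exact Finset.sum_nonneg fun v _ => hδ0 v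
  -- arch weights
  obtain ⟨wi, hwi⟩ : ∃ wi : InfinitePlace K → ℝ, ∀ w, wi w =
      (w.mult : ℝ) * max 0 (Real.log (w (6912 * A ^ 3 / dsc A B))) := ⟨_, fun _ => rfl⟩
  have hwi0 : ∀ w, 0 ≤ wi w := fun w => by
    rw [hwi]; exact mul_nonneg (Nat.cast_nonneg _) (le_max_left _ _)
  obtain ⟨H, hH⟩ : ∃ H : ℝ, H = LD A B + ∑ w : InfinitePlace K, wi w := ⟨_, rfl⟩
  have hHi0 : 0 ≤ ∑ w : InfinitePlace K, wi w := Finset.sum_nonneg fun w _ => hwi0 w
  have hsumwi : ∑ w : InfinitePlace K, (w.mult : ℝ) *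
      max 0 (Real.log (w (6912 * A ^ 3 / dsc A B))) = ∑ w : InfinitePlace K, wi w :=
    Finset.sum_congr rfl fun w _ => (hwi w).symm
  rw [hsumwi] at hH1 hH2
  refine ⟨H, by rw [hH]; linarith, by rw [hH]; linarith, by rw [hH]; linarith, ?_⟩
  -- the summary
  have hne : Nonempty (FinitePlace K ⊕ InfinitePlace K) := by
    obtain ⟨w⟩ : Nonempty (InfinitePlace K) := inferInstance
    exact ⟨Sum.inr w⟩
  have hI : ∀ F : FinitePlace K ⊕ InfinitePlace K → ℝ,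
      ∑ i ∈ S.disjSum (Finset.univ : Finset (InfinitePlace K)), F i =
      ∑ v ∈ S, F (Sum.inl v) + ∑ w : InfinitePlace K, F (Sum.inr w) := fun F => by
    rw [Finset.sum_disjSum]
  have hJm : ∀ (Q : FinitePlace K ⊕ InfinitePlace K → Prop),
      (∀ v ∈ S, Q (Sum.inl v)) → ∀ i ∈ S.disjSum (∅ : Finset (InfinitePlace K)), Q i := by
    intro Q hQ i hi
    rcases Finset.mem_disjSum.1 hi with ⟨v, hv, rfl⟩ | ⟨w, hw, rfl⟩
    · exact hQ v hv
    · simp at hw
  have hTC : |∑ v ∈ S, wf v - LD A B| ≤ C₀ := by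
    rw [hLD, ← Finset.sum_sub_distrib]
    refine (Finset.abs_sum_le_sum_abs _ _).trans ?_
    have h1 : ∀ v ∈ S, |wf v - δ v| ≤ ε v := by
      intro v _
      rw [hδ]
      exact hwδ v
    refine (Finset.sum_le_sum h1).trans ?_
    refine (hεsum S).trans ?_
    linarith
  apply LMT_transport
    (S.disjSum (Finset.univ : Finset (InfinitePlace K)))
    (S.disjSum (∅ : Finset (InfinitePlace K))) (Sum.elim wf wi)
    (Sum.elim tf (fun w i => 12 * τ w i)) (Sum.elim nf (fun _ => 1))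
  · exact Finset.disjSum_mono subset_rfl (Finset.empty_subset _)
  · intro i hi
    rcases Finset.mem_disjSum.1 hi with ⟨v, hv, rfl⟩ | ⟨w, hw, rfl⟩
    · exact hw0 v
    · exact hwi0 w
  · exact hJm _ fun v _ => hn1 v
  · exact hJm _ fun v _ => hint v
  · apply hJm
    intro v _ h
    refine le_trans ?_ (hnle v h)
    exact mul_le_mul_of_nonneg_left (kmt_log_two_le_lq v) (Nat.cast_nonneg _)
  · -- card
    have h1 : S.disjSum (Finset.univ : Finset (InfinitePlace K)) \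
        S.disjSum (∅ : Finset (InfinitePlace K)) ⊆
        (Finset.univ : Finset (InfinitePlace K)).map Function.Embedding.inr := by
      intro i hi
      rw [Finset.mem_sdiff] at hi
      rcases Finset.mem_disjSum.1 hi.1 with ⟨v, hv, rfl⟩ | ⟨w, hw, rfl⟩
      · exact absurd (Finset.mem_disjSum.2 (Or.inl ⟨v, hv, rfl⟩)) hi.2
      · exact Finset.mem_map.2 ⟨w, Finset.mem_univ _, rfl⟩
    have h2 := Finset.card_le_card h1
    rw [Finset.card_map, Finset.card_univ] at h2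
    have h3 : ((S.disjSum (Finset.univ : Finset (InfinitePlace K)) \
        S.disjSum (∅ : Finset (InfinitePlace K))).card : ℝ) ≤ C3 := by
      rw [hC3]; exact_mod_cast h2
    linarith
  · -- total
    rw [hI]
    simp only [Sum.elim_inl, Sum.elim_inr]
    have : ∑ v ∈ S, wf v + ∑ w : InfinitePlace K, wi w - H = ∑ v ∈ S, wf v - LD A B := by
      rw [hH]; ring
    rw [this]; exact hTC
  · -- main inequality
    intro k hk
    choose U hU1 hU2 hU3 using fun v : FinitePlace K => hUf v k hk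
    choose Ui hUi1 hUi2 hUi3 using fun w : InfinitePlace K => hUi w k hk
    have hcne : ∀ n : ℕ, 1 ≤ n → 4 * cu A B (X (n • k)) ≠ 0 := fun n hn =>
      mul_ne_zero (by norm_num) (LMT_cu hg _ (LMT_smul n hn k hk))
    have hsq := hSQ K m 0 A B X Y hg k hk
    have hpot := hPOT K (fun n => X (n • k)) (fun n => 4 * cu A B (X (n • k))) (e k) (he k hk)
      hcne S U ε Ui CX (fun v _ n hn => hU1 v n hn)
      (by
        intro v hv n hn
        have hv' := hv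
        rw [hS, not_not] at hv'
        obtain ⟨V, hV, _⟩ := hFP K v
        have := hGO K V (by rw [hV]; exact hv'.1) A B (by rw [hV]; exact hv'.2.2.1)
          (by rw [hV]; exact hv'.2.2.2.1) (by rw [hV]; exact hv'.2.2.2.2) _ _ hsq n hn
        simpa only [hV] using this)
      (fun w n hn => hUi1 w n hn) (fun v _ => hU2 v) (fun w => hUi2 w)
    have h1 := hpot 12 (by norm_num)
    have h2 : ∑ v ∈ S, (wf v * B2 (pr k (tf v)) + 1 / 6 * Real.log (v (dsc A B)) - ε v) ≤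
        ∑ v ∈ S, U v 12 := by
      apply Finset.sum_le_sum
      intro v _
      have := hU3 v 1 le_rfl
      rw [Nat.cast_one, one_mul, mul_one] at this
      exact this
    have h3 : ∑ w : InfinitePlace K, (w.mult : ℝ) * (1 / 6 * Real.log (w (dsc A B)) +
        max 0 (Real.log (w (6912 * A ^ 3 / dsc A B))) * B2 (((12 : ℕ) : ℝ) * pr k (τ w)) - CX) ≤
        ∑ w : InfinitePlace K, (w.mult : ℝ) * Ui w 12 := by
      apply Finset.sum_le_sum
      intro w _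
      exact mul_le_mul_of_nonneg_left (hUi3 w 12 (by norm_num)) (Nat.cast_nonneg _)
    have h4 := kmt_prod hD S hSD
    have h5 : ∑ v ∈ S, (wf v * B2 (pr k (tf v)) + 1 / 6 * Real.log (v (dsc A B)) - ε v) =
        ∑ v ∈ S, wf v * B2 (pr k (tf v)) + 1 / 6 * ∑ v ∈ S, Real.log (v (dsc A B)) -
        ∑ v ∈ S, ε v := by
      rw [Finset.sum_sub_distrib, Finset.sum_add_distrib, Finset.mul_sum]
    have h6 : ∑ w : InfinitePlace K, (w.mult : ℝ) * (1 / 6 * Real.log (w (dsc A B)) +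
        max 0 (Real.log (w (6912 * A ^ 3 / dsc A B))) * B2 (((12 : ℕ) : ℝ) * pr k (τ w)) - CX) =
        1 / 6 * ∑ w : InfinitePlace K, (w.mult : ℝ) * Real.log (w (dsc A B)) +
        ∑ w : InfinitePlace K, wi w * B2 (pr k (fun i => 12 * τ w i)) - d * CX := by
      have e1 : ∀ w : InfinitePlace K, (w.mult : ℝ) * (1 / 6 * Real.log (w (dsc A B)) +
          max 0 (Real.log (w (6912 * A ^ 3 / dsc A B))) * B2 (((12 : ℕ) : ℝ) * pr k (τ w)) -
            CX) =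
          1 / 6 * ((w.mult : ℝ) * Real.log (w (dsc A B))) +
            wi w * B2 (pr k (fun i => 12 * τ w i)) - (w.mult : ℝ) * CX := by
        intro w
        rw [LMT_pr, hwi]; push_cast; ring
      rw [Finset.sum_congr rfl fun w _ => e1 w, Finset.sum_sub_distrib, Finset.sum_add_distrib,
        ← Finset.mul_sum, ← Finset.sum_mul]
      have e2 : ∑ w : InfinitePlace K, (w.mult : ℝ) = d := by
        rw [hd, ← InfinitePlace.sum_mult_eq]; push_cast; rfl
      rw [e2]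
    have h8 := hεsum S
    rw [hI]
    simp only [Sum.elim_inl, Sum.elim_inr]
    have h9 : (((12 : ℕ) : ℝ)) ^ 2 * e k = 144 * e k := by push_cast; ring
    rw [h9, ← hd] at h1
    rw [h5] at h2
    rw [h6] at h3
    have h10 : (0 : ℝ) ≤ ∑ v ∈ S, ε v := Finset.sum_nonneg fun v _ => hε0 v
    linarith

end Pool.Agent.Helper33.UNI
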