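import Pool.Agent.Helper9.UNI.Sheet

/-!
# Project UNI, row LREGu: lower bound for the Gram determinant, constants uniform in the field
(edit of Helper54/LM/LREG.lean)
-/

set_option autoImplicit false

open Filter Topology NumberField

namespace Pool.Agent.Helper33.UNI

open Pool.Agent.Helper42.LS Pool.Agent.Helper42.LK Pool.Agent.Helper54.LS Pool.Agent.Helper54.LM
  Pool.Agent.Helper92.LV Pool.Agent.Helper9.LS5 Pool.Agent.Helper54.LM3 Pool.Agent.Helper9.UNI

theorem LREGu (hFIN : ST_LFIN) (hMT : ST_LMTu) (hBF : ST_LBF) (hSQ : ST_LSQ)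
    (hSM : ST_KSMu) : ST_LREGu := by
  intro D m hm
  obtain ⟨C₀, hC₀, hM⟩ := hMT D m
  obtain ⟨c₁, W₀, hc₁, hW₀, hF⟩ := hFIN m hm C₀ hC₀
  obtain ⟨cB, hcB, hB⟩ := hBF m
  obtain ⟨cs, hcs, hS⟩ := hSM D (2 * (W₀ + C₀) + 4 * C₀ + 1)
  obtain ⟨H₀, hH₀⟩ : ∃ H₀, H₀ = 2 * (W₀ + C₀) + 4 * C₀ + 1 := ⟨_, rfl⟩
  rw [← hH₀] at hS
  obtain ⟨cA, hcA⟩ : ∃ cA : ℝ, cA = min ((1 / 4 : ℝ) ^ gam m) ((1 + C₀) ^ gam m) := ⟨_, rfl⟩
  have hcA0 : 0 < cA := by
    rw [hcA]
    exact lt_min (Real.rpow_pos_of_pos (by norm_num) _) (Real.rpow_pos_of_pos (by linarith) _)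
  obtain ⟨cD, hcD⟩ : ∃ cD : ℝ, cD = (cB * (cs / 2) ^ ((m : ℝ) / 2)) ^ 2 := ⟨_, rfl⟩
  have hcD0 : 0 < cD := by
    rw [hcD]
    have : 0 < (cs / 2) ^ ((m : ℝ) / 2) := Real.rpow_pos_of_pos (by positivity) _
    positivity
  have hH0 : 0 < H₀ := by rw [hH₀]; linarith
  obtain ⟨cE, hcE⟩ : ∃ cE : ℝ, cE = (1 + H₀) ^ (-|gam m|) := ⟨_, rfl⟩
  have hcE0 : 0 < cE := by rw [hcE]; exact Real.rpow_pos_of_pos (by linarith) _
  refine ⟨min (c₁ * cA) (cD * cE), lt_min (by positivity) (by positivity), ?_⟩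
  intro K _ _ hKD A B hAB X Y G hL hsymm hcan
  obtain ⟨H, hH1, hH2, hH3, V, Vf, w, t, N, hsum⟩ := hM K hKD A B hAB X Y (qf G) hL hcan
  have hHK0 : 0 ≤ HK A B := le_trans hH1 hH2
  have hHKg : 0 < (1 + HK A B) ^ gam m := Real.rpow_pos_of_pos (by linarith) _
  -- the form is nonnegative
  have hpos : ∀ k : Fin m → ℤ, 0 ≤ qf G k := by
    intro k
    by_cases hk : k = 0
    · subst hk
      unfold qf
      simp
    · have h1 := hcan k hk 1 le_rfl
      simp only [Nat.cast_one, one_pow, one_mul] at h1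
      exact ge_of_tendsto' h1 fun n => div_nonneg (Height.zero_le_logHeight₁ _) (by positivity)
  have hpsd := LREG_psd hsymm hpos
  apply LREG_limit
  intro ε hε
  obtain ⟨G', hG'⟩ : ∃ G' : Matrix (Fin m) (Fin m) ℝ,
    G' = G + ε • (1 : Matrix (Fin m) (Fin m) ℝ) := ⟨_, rfl⟩
  have hpd : G'.PosDef := by rw [hG']; exact LREG_pd hpsd hε
  have hle : ∀ k, qf G k ≤ qf G' k := fun k => by rw [hG']; exact LREG_qf_pert G hε.le k
  rw [← hG']
  rcases le_or_gt (HK A B) H₀ with hc | hc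
  · -- small curves
    refine le_trans (mul_le_mul_of_nonneg_right (min_le_right _ _) hHKg.le) ?_
    have h1 : cD ≤ G'.det := by
      rw [hcD]
      refine LREG_small hcs hcB hB hpd fun k hk => ?_
      exact le_trans (hS K hKD A B hAB hc _ _ _ (hSQ K m 0 A B X Y hL k hk) (hcan k hk)) (hle k)
    refine le_trans ?_ h1
    have h2 : cE * (1 + HK A B) ^ gam m ≤ 1 := by
      have h3 : (1 + HK A B) ^ gam m ≤ (1 + HK A B) ^ |gam m| :=
        Real.rpow_le_rpow_of_exponent_le (by linarith) (le_abs_self _)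
      have h4 : (1 + HK A B) ^ |gam m| ≤ (1 + H₀) ^ |gam m| :=
        Real.rpow_le_rpow (by linarith) (by linarith) (abs_nonneg _)
      have h5 : cE * (1 + H₀) ^ |gam m| = 1 := by
        rw [hcE, ← Real.rpow_add (by linarith)]
        simp
      calc cE * (1 + HK A B) ^ gam m ≤ cE * (1 + H₀) ^ |gam m| :=
            mul_le_mul_of_nonneg_left (le_trans h3 h4) hcE0.le
        _ = 1 := h5
    calc cD * cE * (1 + HK A B) ^ gam m = cD * (cE * (1 + HK A B) ^ gam m) := by ring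
      _ ≤ cD * 1 := mul_le_mul_of_nonneg_left h2 hcD0.le
      _ = cD := mul_one _
  · -- large curves
    refine le_trans (mul_le_mul_of_nonneg_right (min_le_left _ _) hHKg.le) ?_
    have habs := abs_le.mp hsum.total
    have hsum' : LSum C₀ H (qf G') V Vf w t N := by
      refine ⟨hsum.sub, hsum.nonneg, hsum.npos, hsum.int, hsum.nle, hsum.card, hsum.total, ?_⟩
      intro k hk
      have h1 := hsum.main k hk
      have h2 := hle k
      linarith
    have h1 := hF G' hpd H V Vf w t N hsum' (by linarith [habs.1])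
    refine le_trans ?_ h1
    have h2 : cA * (1 + HK A B) ^ gam m ≤ (∑ v ∈ V, w v) ^ gam m := by
      rw [hcA]
      refine LREG_pow (by norm_num) (by linarith) ?_ ?_
      · linarith [habs.1]
      · nlinarith [habs.2]
    calc c₁ * cA * (1 + HK A B) ^ gam m = c₁ * (cA * (1 + HK A B) ^ gam m) := by ring
      _ ≤ _ := mul_le_mul_of_nonneg_left h2 hc₁.le

end Pool.Agent.Helper33.UNI
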