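import Pool.Agent.Helper9.UNI.Sheet

/-!
# Project UNI, row PWu: from one point to powers of the curve, constant free of the field
(edit of Helper78/LV/PW.lean)
-/

set_option autoImplicit false

open Filter Topology NumberField

namespace Pool.Agent.Helper33.UNI

open Pool.Agent.Helper42.LS Pool.Agent.Helper42.LK Pool.Agent.Helper54.LS Pool.Agent.Helper54.LM
  Pool.Agent.Helper92.LV Pool.Agent.Helper9.LS5 Pool.Agent.Helper54.LM3 Pool.Agent.Helper9.UNI

theorem PWu (hPTOR : ST_PTOR) (hPSTR : ST_PSTR) (hPHER : ST_PHER) : ST_PWu := by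
  classical
  intro m hm
  choose! cr hcr0 hcr using hPHER
  obtain ⟨f, hf⟩ : ∃ f : ℕ → ℝ, f = fun r : ℕ => (r : ℝ) * cr r ^ (1 / (r : ℝ)) := ⟨_, rfl⟩
  have hf0 : ∀ r ∈ Finset.Icc 1 m, 0 < f r := by
    intro r hr
    have hr1 := (Finset.mem_Icc.1 hr).1
    have := hcr0 r hr1
    have h2 : (0 : ℝ) < r := by exact_mod_cast hr1
    rw [hf]
    positivity
  have hpos : 0 < ∑ r ∈ Finset.Icc 1 m, (f r)⁻¹ :=
    Finset.sum_pos (fun r hr => inv_pos.2 (hf0 r hr)) ⟨1, Finset.mem_Icc.2 ⟨le_rfl, hm⟩⟩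
  have hle : ∀ r ∈ Finset.Icc 1 m, (∑ r ∈ Finset.Icc 1 m, (f r)⁻¹)⁻¹ ≤ f r := by
    intro r hr
    rw [inv_le_comm₀ hpos (hf0 r hr)]
    exact Finset.single_le_sum (f := fun r => (f r)⁻¹) (fun s hs => (inv_pos.2 (hf0 s hs)).le) hr
  refine ⟨(∑ r ∈ Finset.Icc 1 m, (f r)⁻¹)⁻¹, inv_pos.2 hpos, ?_⟩
  intro K _ _ _ A B hD μ hμ hQμ P hP
  obtain ⟨r, Q, N, hr1, hrm, hQ, hN, hNinj⟩ := hPSTR (ECK A B).toAffine.Point m P hP
  obtain ⟨X, Y, hL, ⟨G1, hG1⟩, -⟩ := FINAL_gram st_LGL lmall_CH hD Q hQ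
  have hpsd : G1.PosSemidef := by
    refine LREG_psd hG1.1 fun k => ?_
    refine ge_of_tendsto' (hG1.2 k) fun n => div_nonneg ?_ (by positivity)
    rcases (2 ^ n • ∑ i, k i • Q i : (ECK A B).toAffine.Point) with _ | ⟨x, y, h⟩
    · exact le_rfl
    · exact Height.zero_le_logHeight₁ _
  have hμG : ∀ k : Fin r → ℤ, k ≠ 0 → μ ≤ qf G1 k := by
    intro k hk
    refine hQμ (∑ i, k i • Q i) ?_ _ (hG1.2 k)
    intro n hn h0
    apply hQ (n • k) (smul_ne_zero (by omega) hk)
    rw [← h0, Finset.smul_sum]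
    refine Finset.sum_congr rfl fun i _ => ?_
    rw [Pi.smul_apply, nsmul_eq_mul, mul_smul, natCast_zsmul]
  have hdetG : cr r * μ ^ r ≤ G1.det := hcr r hr1 G1 hpsd μ hμ hμG
  refine ⟨pwR N * G1 * (pwR N).transpose, ⟨?_, ?_⟩, ?_⟩
  · unfold Matrix.IsSymm
    have h1 : G1.transpose = G1 := hG1.1
    rw [Matrix.transpose_mul, Matrix.transpose_mul, Matrix.transpose_transpose, h1,
      Matrix.mul_assoc]
  · intro k
    choose nn hnn0 hnn using hN
    have hT : ∃ M : ℕ, 0 < M ∧ M • (∑ i, k i • (P i - ∑ j, N i j • Q j)) = 0 := by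
      refine ⟨∏ i, nn i, Finset.prod_pos fun i _ => hnn0 i, ?_⟩
      rw [Finset.smul_sum]
      apply Finset.sum_eq_zero
      intro i _
      obtain ⟨t, ht⟩ := Finset.dvd_prod_of_mem nn (Finset.mem_univ i)
      rw [smul_comm, ht, mul_comm, mul_smul, hnn i, smul_zero, smul_zero]
    have hsum : ∑ i, k i • P i = (∑ j, (N.transpose.mulVec k) j • Q j) +
        ∑ i, k i • (P i - ∑ j, N i j • Q j) := by
      have h1 : ∑ i, k i • (P i - ∑ j, N i j • Q j) =
          ∑ i, k i • P i - ∑ j, (N.transpose.mulVec k) j • Q j := by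
        simp only [smul_sub, Finset.sum_sub_distrib]
        congr 1
        simp only [Finset.smul_sum]
        rw [Finset.sum_comm]
        refine Finset.sum_congr rfl fun j _ => ?_
        simp only [Matrix.mulVec, dotProduct, Matrix.transpose_apply, Finset.sum_smul]
        refine Finset.sum_congr rfl fun i _ => ?_
        rw [smul_smul, mul_comm]
      rw [h1]
      abel
    have h2 := hPTOR K A B hD _ _ _ hT (hG1.2 (N.transpose.mulVec k))
    rw [← hsum] at h2
    have h3 : ∑ i, ∑ j, ((N.transpose.mulVec k i : ℤ) : ℝ) * ((N.transpose.mulVec k j : ℤ) : ℝ) *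
        G1 i j = ∑ i, ∑ j, (k i : ℝ) * (k j : ℝ) *
          (pwR N * G1 * (pwR N).transpose) i j := by
      rw [pw_quad _ (fun i => (k i : ℝ)), pw_conj, ← pwR_transpose, ← pw_quad]
      refine Finset.sum_congr rfl fun i _ => Finset.sum_congr rfl fun j _ => ?_
      rw [pwR_mulVec, pwR_mulVec]
    rw [← h3]
    exact h2
  · intro S hS
    have hS' : (pwR (N.transpose * S * N)).PosDef := by
      have h1 := Matrix.PosDef.conjTranspose_mul_mul_same (B := pwR N) hS (pw_inj N hNinj)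
      rw [Matrix.conjTranspose_eq_transpose_of_trivial] at h1
      rw [pwR_mul, pwR_mul]
      exact h1
    have h1 := FINAL_trace hr1 hS'.posSemidef hpsd
    have h2 := FINAL_int hS'
    have h2' : 1 ≤ (pwR (N.transpose * S * N)).det := h2
    have hsymm : (pwR N * G1 * (pwR N).transpose).transpose =
        pwR N * G1 * (pwR N).transpose := by
      have h1 : G1.transpose = G1 := hG1.1
      rw [Matrix.transpose_mul, Matrix.transpose_mul, Matrix.transpose_transpose, h1,
        Matrix.mul_assoc]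
    have htr : (pwR (N.transpose * S * N) * G1).trace =
        ∑ i, ∑ j, (S i j : ℝ) * (pwR N * G1 * (pwR N).transpose) i j := by
      have e1 : (pwR (N.transpose * S * N) * G1).trace =
          (pwR S * (pwR N * G1 * (pwR N).transpose)).trace := by
        rw [pwR_mul, pwR_mul, pwR_transpose, Matrix.mul_assoc, Matrix.mul_assoc,
          Matrix.trace_mul_comm, Matrix.mul_assoc]
      rw [e1, Matrix.trace]
      refine Finset.sum_congr rfl fun i _ => ?_
      rw [Matrix.diag_apply, Matrix.mul_apply]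
      refine Finset.sum_congr rfl fun j _ => ?_
      have h5 := congrFun (congrFun hsymm i) j
      rw [Matrix.transpose_apply] at h5
      rw [h5]
      rfl
    rw [← htr]
    refine le_trans ?_ h1
    have hr0 : (0 : ℝ) < r := by exact_mod_cast hr1
    have hc0 := hcr0 r hr1
    have h6 : (cr r * μ ^ r) ^ (1 / (r : ℝ)) ≤
        ((pwR (N.transpose * S * N)).det * G1.det) ^ (1 / (r : ℝ)) := by
      refine Real.rpow_le_rpow (by positivity) ?_ (by positivity)
      have h7 : 0 ≤ G1.det := hpsd.det_nonneg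
      nlinarith
    have h8 : (cr r * μ ^ r) ^ (1 / (r : ℝ)) = cr r ^ (1 / (r : ℝ)) * μ := by
      rw [Real.mul_rpow hc0.le (by positivity), one_div,
        Real.pow_rpow_inv_natCast hμ (by omega)]
    calc (∑ r ∈ Finset.Icc 1 m, (f r)⁻¹)⁻¹ * μ ≤ f r * μ :=
          mul_le_mul_of_nonneg_right (hle r (Finset.mem_Icc.2 ⟨hr1, hrm⟩)) hμ
      _ = (r : ℝ) * (cr r * μ ^ r) ^ (1 / (r : ℝ)) := by
          rw [h8, hf]
          ring
      _ ≤ _ := mul_le_mul_of_nonneg_left h6 hr0.le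

end Pool.Agent.Helper33.UNI
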