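import Pool.Agent.Helper9.UNI.Sheet

/-!
# Project UNI, row SQRu: the theorem on points, constants uniform in the field
(edit of lvw_all of Helper92/LV/AllW.lean)
-/

set_option autoImplicit false

open Filter Topology NumberField

namespace Pool.Agent.Helper33.UNI

open Pool.Agent.Helper42.LS Pool.Agent.Helper42.LK Pool.Agent.Helper54.LS Pool.Agent.Helper54.LM
  Pool.Agent.Helper92.LV Pool.Agent.Helper9.LS5 Pool.Agent.Helper54.LM3 Pool.Agent.Helper9.UNI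

/-- `0 ≤ HK` -/
lemma SQRu_HK (hDF : ST_KDF) (K : Type) [Field K] [NumberField K] (A B : K)
    (hD : dsc A B ≠ 0) : 0 ≤ HK A B := by
  obtain ⟨-, hloc, -, hH1, -⟩ := hDF K A B hD
  have h1 : 0 ≤ LD A B := by
    unfold LD
    exact finsum_nonneg fun v => (hloc v).1
  have h2 : 0 ≤ ∑ w : InfinitePlace K, (w.mult : ℝ) *
      max 0 (Real.log (w (6912 * A ^ 3 / dsc A B))) :=
    Finset.sum_nonneg fun w _ => mul_nonneg (Nat.cast_nonneg _) (le_max_left _ _)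
  linarith

theorem SQRu (hLVW : ST_LVWu) (hPW : ST_PWu) (hDF : ST_KDF) : ST_SQRu := by
  intro D m hm
  obtain ⟨c₁, hc₁, h1⟩ := hLVW D
  obtain ⟨c₂, hc₂, h2⟩ := hPW m hm
  refine ⟨min c₁ (c₂ * c₁), lt_min hc₁ (by positivity), ?_⟩
  intro K _ _ _ hKD A B hD P hP
  have hHK : 0 ≤ HK A B := SQRu_HK hDF K A B hD
  have hH1 : 0 < 1 + HK A B := by linarith
  have hpt : ∀ Q : (ECK A B).toAffine.Point, (∀ n : ℕ, 0 < n → n • Q ≠ 0) → ∀ e : ℝ,
      Tendsto (fun n : ℕ => hxK (2 ^ n • Q) / 4 ^ n) atTop (𝓝 e) →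
      c₁ * (1 + HK A B) ^ (-(1 / 2 : ℝ)) ≤ e ∧
      ∀ X : ℝ, 1 ≤ X → X * LW A B X ≤ c₁ * (1 + HK A B) → c₁ * (1 + HK A B) / X ^ 3 ≤ e := by
    intro Q hQ e he
    obtain ⟨x, y, e', hg, he', ht⟩ := kpts_seq A B hD Q hQ
    rw [tendsto_nhds_unique he ht]
    exact h1 K hKD A B hD x y e' hg he'
  have hp0 : 0 < (1 + HK A B) ^ (-(1 / 2 : ℝ)) := Real.rpow_pos_of_pos hH1 _
  obtain ⟨G, hG, hG1⟩ := h2 K A B hD (c₁ * (1 + HK A B) ^ (-(1 / 2 : ℝ))) (by positivity)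
    (fun Q hQ e he => (hpt Q hQ e he).1) P hP
  refine ⟨G, hG, ?_⟩
  intro S hS
  refine ⟨?_, ?_⟩
  · refine le_trans ?_ (hG1 S hS)
    rw [← mul_assoc]
    exact mul_le_mul_of_nonneg_right (min_le_right _ _) hp0.le
  · intro X hX hLX
    have hX0 : 0 < X := by linarith
    obtain ⟨G', hG', hG1'⟩ := h2 K A B hD (c₁ * (1 + HK A B) / X ^ 3) (by positivity)
      (fun Q hQ e he => (hpt Q hQ e he).2 X hX
        (hLX.trans (mul_le_mul_of_nonneg_right (min_le_left _ _) hH1.le))) P hP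
    rw [isGr_unique hG hG']
    refine le_trans ?_ (hG1' S hS)
    rw [← mul_div_assoc, ← mul_assoc]
    apply div_le_div_of_nonneg_right _ (by positivity)
    exact mul_le_mul_of_nonneg_right (min_le_right _ _) hH1.le

end Pool.Agent.Helper33.UNI
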